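import Pool.Agent.H32.Heat.A3core
import Pool.Agent.H13.Heat.GBc

/-! Module A3 of project HEAT. -/

namespace Pool.Agent.H32.Heat

open MeasureTheory ProbabilityTheory Pool.Agent.H58.Heat

theorem A3 {n : ℕ} (F : E n → ℝ) (hF : ContDiff ℝ 1 F) (h0 : EG F) (h1 : EG (fderiv ℝ F))
    (_hn : ∫ x, F x ^ 2 ∂gm n = 1) (L : ℝ) (hL : 0 ≤ L) (g : E n → ℝ)
    (hg : KKT ((gm n).withDensity (fun x => ENNReal.ofReal (F x ^ 2))) L g) :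
    ∫ x, ‖fderiv ℝ g x‖ ^ 2 * Real.exp (g x) ∂gm n ≤
      2 * Real.sqrt ((∫ x, ‖fderiv ℝ F x‖ ^ 2 ∂gm n) *
        ∫ x, ‖fderiv ℝ g x‖ ^ 2 * F x ^ 2 ∂gm n) :=
  A3_of Pool.Agent.H13.Heat.GB4 F hF h0 h1 L hL g hg

end Pool.Agent.H32.Heat
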