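import Pool.Agent.H58.Heat.Defs

/-! The standard Gaussian measure is absolutely continuous; basic integrability on the product. -/

namespace Pool.Agent.H32.Heat

open MeasureTheory ProbabilityTheory Pool.Agent.H58.Heat

lemma pi_ac : ∀ (n : ℕ) (μ ν : Fin n → Measure ℝ) [∀ i, SigmaFinite (μ i)]
    [∀ i, SigmaFinite (ν i)], (∀ i, μ i ≪ ν i) → Measure.pi μ ≪ Measure.pi ν := by
  intro n
  induction n with
  | zero =>
    intro μ ν _ _ _
    rw [Measure.pi_of_empty, Measure.pi_of_empty]
  | succ n ih =>
    intro μ ν _ _ h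
    have h1 := (measurePreserving_piFinSuccAbove μ 0).symm
    have h2 := (measurePreserving_piFinSuccAbove ν 0).symm
    rw [← h1.map_eq, ← h2.map_eq]
    refine Measure.AbsolutelyContinuous.map ?_ (MeasurableEquiv.measurable _)
    exact (h 0).prod (ih _ _ fun i => h _)

/-- the standard Gaussian measure is absolutely continuous -/
lemma gm_ac (n : ℕ) : gm n ≪ (volume : Measure (E n)) := by
  have h1 : (Measure.pi (fun _ : Fin n => gaussianReal 0 1)) ≪
      (volume : Measure (Fin n → ℝ)) := by
    rw [volume_pi]
    exact pi_ac n _ _ fun i => gaussianReal_absolutelyContinuous 0 one_ne_zero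
  have h2 := (h1.map (f := WithLp.toLp 2) (by fun_prop))
  rw [map_pi_eq_stdGaussian] at h2
  have h3 := (EuclideanSpace.volume_preserving_symm_measurableEquiv_toLp (Fin n)).symm.map_eq
  have h4 : (volume : Measure (Fin n → ℝ)).map (WithLp.toLp 2) = (volume : Measure (E n)) := h3
  rw [h4] at h2
  exact h2

end Pool.Agent.H32.Heat
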