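import Pool.Agent.H58.Heat.Defs
import Pool.Agent.H13.Heat.GBa
import Pool.Agent.H32.Heat.AC

/-! Module A3 of project HEAT: the semigroup competitor inequality. -/

namespace Pool.Agent.H32.Heat

open MeasureTheory ProbabilityTheory Pool.Agent.H58.Heat Filter Topology
open Pool.Agent.H13.Heat (GB1 GB3)

/-- exponential growth on the product -/
def G2 {n : ℕ} (f : E n × E n → ℝ) : Prop :=
  ∃ A B : ℝ, 0 ≤ A ∧ 0 ≤ B ∧ ∀ y, |f y| ≤ A * Real.exp (B * (‖y.1‖ + ‖y.2‖))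

/-- the rotated point -/
noncomputable def xt {n : ℕ} (t : ℝ) (y : E n × E n) : E n :=
  Real.cos t • y.1 + Real.sin t • y.2

lemma xt_cont {n : ℕ} (t : ℝ) : Continuous (xt (n := n) t) := by
  unfold xt; fun_prop

lemma norm_xt {n : ℕ} (t : ℝ) (y : E n × E n) : ‖xt t y‖ ≤ ‖y.1‖ + ‖y.2‖ := by
  unfold xt
  refine (norm_add_le _ _).trans ?_
  rw [norm_smul, norm_smul, Real.norm_eq_abs, Real.norm_eq_abs]
  have h1 := Real.abs_cos_le_one t
  have h2 := Real.abs_sin_le_one t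
  nlinarith [norm_nonneg y.1, norm_nonneg y.2]

lemma norm_sub_xt {n : ℕ} (t : ℝ) (y : E n × E n) :
    ‖y.1 - xt t y‖ ≤ |t| * (‖y.1‖ + ‖y.2‖) := by
  have h0 : y.1 - xt t y = (1 - Real.cos t) • y.1 + (-Real.sin t) • y.2 := by
    unfold xt; module
  rw [h0]
  refine (norm_add_le _ _).trans ?_
  rw [norm_smul, norm_smul, Real.norm_eq_abs, Real.norm_eq_abs, abs_neg]
  have h1 : |1 - Real.cos t| ≤ |t| := by
    have := Real.abs_cos_sub_cos_le 0 t
    simpa using this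
  have h2 : |Real.sin t| ≤ |t| := Real.abs_sin_le_abs
  nlinarith [norm_nonneg y.1, norm_nonneg y.2]

lemma EG_G2_fst {n : ℕ} {f : E n → ℝ} (hf : EG f) : G2 (fun y : E n × E n => f y.1) := by
  obtain ⟨C, hC⟩ := hf
  refine ⟨|C|, |C|, abs_nonneg _, abs_nonneg _, fun y => ?_⟩
  refine (hC y.1).trans ?_
  refine mul_le_mul (le_abs_self _) ?_ (Real.exp_pos _).le (abs_nonneg _)
  apply Real.exp_le_exp.2
  have : C * ‖y.1‖ ≤ |C| * ‖y.1‖ := mul_le_mul_of_nonneg_right (le_abs_self _) (norm_nonneg _)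
  nlinarith [norm_nonneg y.2, abs_nonneg C, mul_nonneg (abs_nonneg C) (norm_nonneg y.2)]

lemma EG_G2_xt {n : ℕ} {f : E n → ℝ} (hf : EG f) (t : ℝ) :
    G2 (fun y : E n × E n => f (xt t y)) := by
  obtain ⟨C, hC⟩ := hf
  refine ⟨|C|, |C|, abs_nonneg _, abs_nonneg _, fun y => ?_⟩
  refine (hC (xt t y)).trans ?_
  refine mul_le_mul (le_abs_self _) ?_ (Real.exp_pos _).le (abs_nonneg _)
  apply Real.exp_le_exp.2
  have : C * ‖xt t y‖ ≤ |C| * ‖xt t y‖ :=
    mul_le_mul_of_nonneg_right (le_abs_self _) (norm_nonneg _)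
  exact this.trans (mul_le_mul_of_nonneg_left (norm_xt t y) (abs_nonneg _))

lemma G2.mul {n : ℕ} {f g : E n × E n → ℝ} (hf : G2 f) (hg : G2 g) :
    G2 (fun y => f y * g y) := by
  obtain ⟨A, B, hA, hB, h⟩ := hf
  obtain ⟨A', B', hA', hB', h'⟩ := hg
  refine ⟨A * A', B + B', mul_nonneg hA hA', add_nonneg hB hB', fun y => ?_⟩
  rw [abs_mul, add_mul, Real.exp_add]
  calc |f y| * |g y| ≤ (A * Real.exp (B * (‖y.1‖ + ‖y.2‖))) *
        (A' * Real.exp (B' * (‖y.1‖ + ‖y.2‖))) :=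
        mul_le_mul (h y) (h' y) (abs_nonneg _) (mul_nonneg hA (Real.exp_pos _).le)
    _ = _ := by ring

lemma G2.add {n : ℕ} {f g : E n × E n → ℝ} (hf : G2 f) (hg : G2 g) :
    G2 (fun y => f y + g y) := by
  obtain ⟨A, B, hA, hB, h⟩ := hf
  obtain ⟨A', B', hA', hB', h'⟩ := hg
  refine ⟨A + A', B + B', add_nonneg hA hA', add_nonneg hB hB', fun y => ?_⟩
  have hs : 0 ≤ ‖y.1‖ + ‖y.2‖ := add_nonneg (norm_nonneg _) (norm_nonneg _)
  have e1 : Real.exp (B * (‖y.1‖ + ‖y.2‖)) ≤ Real.exp ((B + B') * (‖y.1‖ + ‖y.2‖)) :=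
    Real.exp_le_exp.2 (by nlinarith [mul_nonneg hB' hs])
  have e2 : Real.exp (B' * (‖y.1‖ + ‖y.2‖)) ≤ Real.exp ((B + B') * (‖y.1‖ + ‖y.2‖)) :=
    Real.exp_le_exp.2 (by nlinarith [mul_nonneg hB hs])
  calc |f y + g y| ≤ |f y| + |g y| := abs_add_le _ _
    _ ≤ A * Real.exp (B * (‖y.1‖ + ‖y.2‖)) + A' * Real.exp (B' * (‖y.1‖ + ‖y.2‖)) :=
        add_le_add (h y) (h' y)
    _ ≤ _ := by rw [add_mul]; exact add_le_add (mul_le_mul_of_nonneg_left e1 hA)
                  (mul_le_mul_of_nonneg_left e2 hA')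

lemma G2.neg {n : ℕ} {f : E n × E n → ℝ} (hf : G2 f) : G2 (fun y => -f y) := by
  obtain ⟨A, B, hA, hB, h⟩ := hf
  exact ⟨A, B, hA, hB, fun y => by rw [abs_neg]; exact h y⟩

lemma G2.sub {n : ℕ} {f g : E n × E n → ℝ} (hf : G2 f) (hg : G2 g) :
    G2 (fun y => f y - g y) := by
  simpa [sub_eq_add_neg] using hf.add hg.neg

lemma G2_const {n : ℕ} (c : ℝ) : G2 (fun _ : E n × E n => c) :=
  ⟨|c|, 0, abs_nonneg _, le_rfl, fun y => by simp⟩

lemma G2_norm {n : ℕ} : G2 (fun y : E n × E n => ‖y.1‖ + ‖y.2‖) := by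
  refine ⟨1, 1, zero_le_one, zero_le_one, fun y => ?_⟩
  have hs : 0 ≤ ‖y.1‖ + ‖y.2‖ := add_nonneg (norm_nonneg _) (norm_nonneg _)
  rw [abs_of_nonneg hs, one_mul, one_mul]
  linarith [Real.add_one_le_exp (‖y.1‖ + ‖y.2‖)]

lemma G2_exp {n : ℕ} {B : ℝ} (hB : 0 ≤ B) :
    G2 (fun y : E n × E n => Real.exp (B * (‖y.1‖ + ‖y.2‖))) := by
  refine ⟨1, B, zero_le_one, hB, fun y => ?_⟩
  rw [abs_of_pos (Real.exp_pos _), one_mul]

lemma G2.mono {n : ℕ} {f g : E n × E n → ℝ} (hg : G2 g) (h : ∀ y, |f y| ≤ |g y|) : G2 f := by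
  obtain ⟨A, B, hA, hB, h'⟩ := hg
  exact ⟨A, B, hA, hB, fun y => (h y).trans (h' y)⟩

lemma G2.integrable {n : ℕ} {f : E n × E n → ℝ} (hf : G2 f)
    (hm : AEStronglyMeasurable f ((gm n).prod (gm n))) :
    Integrable f ((gm n).prod (gm n)) := by
  obtain ⟨A, B, hA, hB, h⟩ := hf
  have h1 : Integrable (fun x : E n => Real.exp (B * ‖x‖)) (gm n) := by
    refine GB1 _ (by fun_prop) ⟨max 1 B, fun x => ?_⟩
    rw [Real.norm_eq_abs, abs_of_pos (Real.exp_pos _)]
    calc Real.exp (B * ‖x‖) ≤ Real.exp (max 1 B * ‖x‖) :=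
          Real.exp_le_exp.2 (mul_le_mul_of_nonneg_right (le_max_right _ _) (norm_nonneg _))
      _ = 1 * Real.exp (max 1 B * ‖x‖) := (one_mul _).symm
      _ ≤ _ := mul_le_mul_of_nonneg_right (le_max_left _ _) (Real.exp_pos _).le
  have h2 : Integrable (fun y : E n × E n => A * (Real.exp (B * ‖y.1‖) * Real.exp (B * ‖y.2‖)))
      ((gm n).prod (gm n)) := (h1.mul_prod h1).const_mul A
  refine h2.mono' hm (Eventually.of_forall fun y => ?_)
  rw [Real.norm_eq_abs]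
  refine (h y).trans (le_of_eq ?_)
  rw [mul_add, Real.exp_add]

/-- second moment of a linear functional -/
lemma gm_sq {n : ℕ} (l : E n →L[ℝ] ℝ) : ∫ z, (l z) ^ 2 ∂gm n = ‖l‖ ^ 2 := by
  have h := variance_dual_stdGaussian (E := E n) l
  have hm : MemLp l 2 (gm n) := IsGaussian.memLp_dual (gm n) l 2 (by simp)
  rw [variance_eq_sub hm] at h
  have h0 : ∫ z, l z ∂(gm n) = 0 := integral_strongDual_stdGaussian (E := E n) l
  rw [h0] at h
  simpa using h

lemma Lip_cont {n : ℕ} {L : ℝ} {g : E n → ℝ} (hg : Lip L g) : Continuous g := by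
  have h : LipschitzWith (Real.toNNReal L) g := by
    apply LipschitzWith.of_dist_le_mul
    intro x y
    rw [Real.dist_eq, dist_eq_norm]
    refine (hg x y).trans ?_
    exact mul_le_mul_of_nonneg_right (Real.le_coe_toNNReal L) (norm_nonneg _)
  exact h.continuous

lemma Lip_ae_diff {n : ℕ} {L : ℝ} {g : E n → ℝ} (hg : Lip L g) :
    ∀ᵐ x ∂gm n, DifferentiableAt ℝ g x := by
  have h : LipschitzWith (Real.toNNReal L) g := by
    apply LipschitzWith.of_dist_le_mul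
    intro x y
    rw [Real.dist_eq, dist_eq_norm]
    refine (hg x y).trans ?_
    exact mul_le_mul_of_nonneg_right (Real.le_coe_toNNReal L) (norm_nonneg _)
  exact (gm_ac n).ae_le (h.ae_differentiableAt (μ := volume))

lemma Lip_EG {n : ℕ} {L : ℝ} {g : E n → ℝ} (hL : 0 ≤ L) (hg : Lip L g) : EG g := by
  refine ⟨|g 0| + L + 1, fun x => ?_⟩
  have h1 := hg x 0
  rw [sub_zero] at h1
  have h2 : |g x| ≤ |g 0| + L * ‖x‖ := by
    have := abs_sub_abs_le_abs_sub (g x) (g 0)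
    linarith
  have h3 : 1 + ‖x‖ ≤ Real.exp ((|g 0| + L + 1) * ‖x‖) := by
    have := Real.add_one_le_exp ((|g 0| + L + 1) * ‖x‖)
    nlinarith [norm_nonneg x, abs_nonneg (g 0), mul_nonneg (abs_nonneg (g 0)) (norm_nonneg x),
      mul_nonneg hL (norm_nonneg x)]
  rw [Real.norm_eq_abs]
  calc |g x| ≤ (|g 0| + L + 1) * (1 + ‖x‖) := by
        nlinarith [norm_nonneg x, abs_nonneg (g 0), mul_nonneg (abs_nonneg (g 0)) (norm_nonneg x)]
    _ ≤ _ := mul_le_mul_of_nonneg_left h3 (by positivity)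

lemma Lip_EG_exp {n : ℕ} {L : ℝ} {g : E n → ℝ} (hL : 0 ≤ L) (hg : Lip L g) :
    Pool.Agent.H58.Heat.EG (fun x => Real.exp (g x)) := by
  refine ⟨Real.exp |g 0| + L, fun x => ?_⟩
  have h1 := hg x 0
  rw [sub_zero] at h1
  have h2 : g x ≤ |g 0| + L * ‖x‖ := by
    have := abs_sub_abs_le_abs_sub (g x) (g 0)
    linarith [le_abs_self (g x)]
  rw [Real.norm_eq_abs, abs_of_pos (Real.exp_pos _)]
  calc Real.exp (g x) ≤ Real.exp (|g 0| + L * ‖x‖) := Real.exp_le_exp.2 h2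
    _ = Real.exp |g 0| * Real.exp (L * ‖x‖) := Real.exp_add _ _
    _ ≤ (Real.exp |g 0| + L) * Real.exp ((Real.exp |g 0| + L) * ‖x‖) := by
        refine mul_le_mul (by linarith) ?_ (Real.exp_pos _).le (by positivity)
        apply Real.exp_le_exp.2
        exact mul_le_mul_of_nonneg_right (by linarith [Real.exp_pos |g 0|]) (norm_nonneg _)

lemma Lip_fderiv_le {n : ℕ} {L : ℝ} {g : E n → ℝ} (hL : 0 ≤ L) (hg : Lip L g) (x : E n) :
    ‖fderiv ℝ g x‖ ≤ L := by
  have h : LipschitzWith (Real.toNNReal L) g := by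
    apply LipschitzWith.of_dist_le_mul
    intro x y
    rw [Real.dist_eq, dist_eq_norm]
    refine (hg x y).trans ?_
    exact mul_le_mul_of_nonneg_right (Real.le_coe_toNNReal L) (norm_nonneg _)
  have := norm_fderiv_le_of_lipschitz ℝ h (x₀ := x)
  rwa [Real.coe_toNNReal _ hL] at this


/-- the competitor -/
noncomputable def comp {n : ℕ} (t : ℝ) (g : E n → ℝ) (x : E n) : ℝ :=
  ∫ z, g (xt t (x, z)) ∂gm n

lemma EG_int_slice {n : ℕ} {f : E n → ℝ} (hf : EG f) (hc : Continuous f) (t : ℝ) (x : E n) :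
    Integrable (fun z => f (xt t (x, z))) (gm n) := by
  obtain ⟨A, B, hA, hB, h⟩ := EG_G2_xt hf t
  refine GB1 _ ?_ ?_
  · exact (hc.comp ((xt_cont t).comp (by fun_prop))).aestronglyMeasurable
  · refine ⟨A * Real.exp (B * ‖x‖) + B, fun z => ?_⟩
    rw [Real.norm_eq_abs]
    refine (h (x, z)).trans ?_
    simp only
    rw [mul_add, Real.exp_add]
    have e0 : 0 ≤ A * Real.exp (B * ‖x‖) := mul_nonneg hA (Real.exp_pos _).le
    calc A * (Real.exp (B * ‖x‖) * Real.exp (B * ‖z‖)) =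
          (A * Real.exp (B * ‖x‖)) * Real.exp (B * ‖z‖) := by ring
      _ ≤ (A * Real.exp (B * ‖x‖) + B) * Real.exp ((A * Real.exp (B * ‖x‖) + B) * ‖z‖) := by
          refine mul_le_mul (by linarith) ?_ (Real.exp_pos _).le (by positivity)
          apply Real.exp_le_exp.2
          exact mul_le_mul_of_nonneg_right (by linarith) (norm_nonneg _)

lemma comp_Lip {n : ℕ} {L : ℝ} {g : E n → ℝ} (hL : 0 ≤ L) (hg : Lip L g) (t : ℝ) :
    Lip L (comp t g) := by
  intro x y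
  have i1 := EG_int_slice (Lip_EG hL hg) (Lip_cont hg) t x
  have i2 := EG_int_slice (Lip_EG hL hg) (Lip_cont hg) t y
  unfold comp
  rw [← integral_sub i1 i2]
  refine (abs_integral_le_integral_abs).trans ?_
  have h : ∀ z : E n, |g (xt t (x, z)) - g (xt t (y, z))| ≤ L * ‖x - y‖ := by
    intro z
    refine (hg _ _).trans (mul_le_mul_of_nonneg_left ?_ hL)
    have : xt t (x, z) - xt t (y, z) = Real.cos t • (x - y) := by
      unfold xt; simp only; module
    rw [this, norm_smul, Real.norm_eq_abs]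
    exact mul_le_of_le_one_left (norm_nonneg _) (Real.abs_cos_le_one t)
  calc ∫ z, |g (xt t (x, z)) - g (xt t (y, z))| ∂gm n ≤ ∫ _z : E n, L * ‖x - y‖ ∂gm n :=
        integral_mono ((i1.sub i2).abs) (integrable_const _) h
    _ = L * ‖x - y‖ := by simp

/-- integration of the competitor against a weight -/
lemma int_comp {n : ℕ} {L : ℝ} {g : E n → ℝ} (hL : 0 ≤ L) (hg : Lip L g) (t : ℝ)
    (w : E n → ℝ) (hw : Continuous w) (hwG : EG w) :
    ∫ x, (comp t g x - g x) * w x ∂gm n =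
      ∫ y, (g (xt t y) - g y.1) * w y.1 ∂((gm n).prod (gm n)) := by
  have hG : G2 (fun y : E n × E n => (g (xt t y) - g y.1) * w y.1) :=
    ((EG_G2_xt (Lip_EG hL hg) t).sub (EG_G2_fst (Lip_EG hL hg))).mul (EG_G2_fst hwG)
  have hc : Continuous (fun y : E n × E n => (g (xt t y) - g y.1) * w y.1) := by
    have h1 := (Lip_cont hg).comp (xt_cont (n := n) t)
    have h2 := (Lip_cont hg).comp (continuous_fst (X := E n) (Y := E n))
    have h3 := hw.comp (continuous_fst (X := E n) (Y := E n))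
    exact (h1.sub h2).mul h3
  rw [integral_prod _ (hG.integrable hc.aestronglyMeasurable)]
  congr 1
  ext x
  simp only
  rw [integral_mul_const, integral_sub (EG_int_slice (Lip_EG hL hg) (Lip_cont hg) t x)
    (integrable_const _)]
  simp [comp]

/-- antisymmetrisation -/
lemma antisym {n : ℕ} {L : ℝ} {g : E n → ℝ} (hL : 0 ≤ L) (hg : Lip L g) (t : ℝ)
    (w : E n → ℝ) (hw : Continuous w) (hwG : EG w) :
    2 * ∫ y, (g (xt t y) - g y.1) * w y.1 ∂((gm n).prod (gm n)) =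
      ∫ y, (g (xt t y) - g y.1) * (w y.1 - w (xt t y)) ∂((gm n).prod (gm n)) := by
  have c1 := (Lip_cont hg).comp (xt_cont (n := n) t)
  have c2 := (Lip_cont hg).comp (continuous_fst (X := E n) (Y := E n))
  have c3 := hw.comp (continuous_fst (X := E n) (Y := E n))
  have c4 := hw.comp (xt_cont (n := n) t)
  have g1 := EG_G2_xt (Lip_EG hL hg) t
  have g2 := EG_G2_fst (Lip_EG hL hg)
  have g3 := EG_G2_fst hwG
  have g4 := EG_G2_xt hwG t
  have hex := GB3 (n := n) t (fun p => (g p.2 - g p.1) * w p.1)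
    ((((Lip_cont hg).comp continuous_snd).sub ((Lip_cont hg).comp continuous_fst)).mul
      (hw.comp continuous_fst)).measurable
  simp only at hex
  have hex' : ∫ y, (g (xt t y) - g y.1) * w y.1 ∂((gm n).prod (gm n)) =
      ∫ y, (g y.1 - g (xt t y)) * w (xt t y) ∂((gm n).prod (gm n)) := hex
  have i1 : Integrable (fun y : E n × E n => (g (xt t y) - g y.1) * w y.1)
      ((gm n).prod (gm n)) :=
    ((g1.sub g2).mul g3).integrable ((c1.sub c2).mul c3).aestronglyMeasurable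
  have i2 : Integrable (fun y : E n × E n => (g y.1 - g (xt t y)) * w (xt t y))
      ((gm n).prod (gm n)) :=
    ((g2.sub g1).mul g4).integrable ((c2.sub c1).mul c4).aestronglyMeasurable
  rw [two_mul]
  nth_rewrite 2 [hex']
  rw [← integral_add i1 i2]
  congr 1
  ext y
  ring

/-- the basic inequality from the optimality conditions -/
lemma key_ineq {n : ℕ} (F : E n → ℝ) (hF : ContDiff ℝ 1 F) (h0 : EG F)
    (L : ℝ) (hL : 0 ≤ L) (g : E n → ℝ)
    (hg : KKT ((gm n).withDensity (fun x => ENNReal.ofReal (F x ^ 2))) L g) (t : ℝ) :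
    ∫ y, (g y.1 - g (xt t y)) * (Real.exp (g y.1) - Real.exp (g (xt t y)))
        ∂((gm n).prod (gm n)) ≤
      ∫ y, (g y.1 - g (xt t y)) * (F y.1 ^ 2 - F (xt t y) ^ 2) ∂((gm n).prod (gm n)) := by
  obtain ⟨hLip, -, hk⟩ := hg
  have hFc := hF.continuous
  have hF2 : EG (fun x => F x ^ 2) := by
    obtain ⟨C, hC⟩ := h0
    refine ⟨C ^ 2 + 2 * |C|, fun x => ?_⟩
    have h1 := hC x
    rw [Real.norm_eq_abs] at h1
    rw [Real.norm_eq_abs, abs_of_nonneg (sq_nonneg _)]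
    calc F x ^ 2 = |F x| ^ 2 := (sq_abs _).symm
      _ ≤ (C * Real.exp (C * ‖x‖)) ^ 2 := pow_le_pow_left₀ (abs_nonneg _) h1 2
      _ = C ^ 2 * Real.exp (2 * C * ‖x‖) := by
          rw [mul_pow, ← Real.exp_nat_mul]; congr 2; push_cast; ring
      _ ≤ (C ^ 2 + 2 * |C|) * Real.exp ((C ^ 2 + 2 * |C|) * ‖x‖) := by
          refine mul_le_mul (by linarith [abs_nonneg C]) ?_ (Real.exp_pos _).le (by positivity)
          apply Real.exp_le_exp.2
          exact mul_le_mul_of_nonneg_right (by nlinarith [le_abs_self C]) (norm_nonneg _)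
  have hk1 := hk (comp t g) (comp_Lip hL hLip t)
  rw [integral_withDensity_eq_integral_toReal_smul (by fun_prop)
    (Eventually.of_forall fun x => ENNReal.ofReal_lt_top)] at hk1
  have e1 : ∫ x, (ENNReal.ofReal (F x ^ 2)).toReal • (comp t g x - g x) ∂gm n =
      ∫ x, (comp t g x - g x) * F x ^ 2 ∂gm n := by
    congr 1
    ext x
    rw [ENNReal.toReal_ofReal (sq_nonneg _), smul_eq_mul, mul_comm]
  rw [e1, int_comp hL hLip t _ (by fun_prop) hF2,
    int_comp hL hLip t (fun x => Real.exp (g x)) (Real.continuous_exp.comp (Lip_cont hLip))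
      (Lip_EG_exp hL hLip)] at hk1
  have a1 := antisym hL hLip t (fun x => F x ^ 2) (by fun_prop) hF2
  have a2 := antisym hL hLip t (fun x => Real.exp (g x)) (Real.continuous_exp.comp (Lip_cont hLip))
    (Lip_EG_exp hL hLip)
  have b1 : ∫ y, (g (xt t y) - g y.1) * (F y.1 ^ 2 - F (xt t y) ^ 2) ∂((gm n).prod (gm n)) =
      -∫ y, (g y.1 - g (xt t y)) * (F y.1 ^ 2 - F (xt t y) ^ 2) ∂((gm n).prod (gm n)) := by
    rw [← integral_neg]; congr 1; ext y; ring
  have b2 : ∫ y, (g (xt t y) - g y.1) * (Real.exp (g y.1) - Real.exp (g (xt t y)))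
        ∂((gm n).prod (gm n)) =
      -∫ y, (g y.1 - g (xt t y)) * (Real.exp (g y.1) - Real.exp (g (xt t y)))
        ∂((gm n).prod (gm n)) := by
    rw [← integral_neg]; congr 1; ext y; ring
  rw [b1] at a1
  rw [b2] at a2
  linarith

/-- the limit of the difference quotients -/
lemma lim_quad {n : ℕ} (w A B : E n → ℝ) (hw : Continuous w) (hwG : EG w)
    (hA : Continuous A) (hB : Continuous B)
    (hAd : ∀ᵐ x ∂gm n, DifferentiableAt ℝ A x) (hBd : ∀ᵐ x ∂gm n, DifferentiableAt ℝ B x)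
    (CA CB : ℝ) (hCA : 0 ≤ CA) (hCB : 0 ≤ CB)
    (hA2 : ∀ x y, |A x - A y| ≤ CA * Real.exp (CA * (‖x‖ + ‖y‖)) * ‖x - y‖)
    (hB2 : ∀ x y, |B x - B y| ≤ CB * Real.exp (CB * (‖x‖ + ‖y‖)) * ‖x - y‖) :
    Tendsto (fun t : ℝ => ∫ y, w y.1 * ((t⁻¹ * (A y.1 - A (xt t y))) *
        (t⁻¹ * (B y.1 - B (xt t y)))) ∂((gm n).prod (gm n))) (𝓝[>] 0)
      (𝓝 (∫ y, w y.1 * (fderiv ℝ A y.1 y.2 * fderiv ℝ B y.1 y.2) ∂((gm n).prod (gm n)))) := by
  have hquot : ∀ (C : ℝ) (_ : 0 ≤ C) (A : E n → ℝ)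
      (_ : ∀ x y, |A x - A y| ≤ C * Real.exp (C * (‖x‖ + ‖y‖)) * ‖x - y‖) (t : ℝ) (_ : 0 < t)
      (y : E n × E n), |t⁻¹ * (A y.1 - A (xt t y))| ≤
        C * Real.exp (2 * C * (‖y.1‖ + ‖y.2‖)) * (‖y.1‖ + ‖y.2‖) := by
    intro C hC A hA t ht y
    have hs : 0 ≤ ‖y.1‖ + ‖y.2‖ := add_nonneg (norm_nonneg _) (norm_nonneg _)
    rw [abs_mul, abs_inv, abs_of_pos ht, inv_mul_le_iff₀ ht]
    refine (hA _ _).trans ?_
    have e1 : Real.exp (C * (‖y.1‖ + ‖xt t y‖)) ≤ Real.exp (2 * C * (‖y.1‖ + ‖y.2‖)) := by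
      apply Real.exp_le_exp.2
      have := norm_xt t y
      nlinarith [mul_le_mul_of_nonneg_left this hC, mul_nonneg hC (norm_nonneg y.2)]
    have e2 := norm_sub_xt t y
    rw [abs_of_pos ht] at e2
    calc C * Real.exp (C * (‖y.1‖ + ‖xt t y‖)) * ‖y.1 - xt t y‖ ≤
          C * Real.exp (2 * C * (‖y.1‖ + ‖y.2‖)) * (t * (‖y.1‖ + ‖y.2‖)) := by
          refine mul_le_mul (mul_le_mul_of_nonneg_left e1 hC) e2 (norm_nonneg _) ?_
          exact mul_nonneg hC (Real.exp_pos _).le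
      _ = _ := by ring
  have hlim : ∀ (A : E n → ℝ) (y : E n × E n), DifferentiableAt ℝ A y.1 →
      Tendsto (fun t : ℝ => t⁻¹ * (A y.1 - A (xt t y))) (𝓝[>] 0)
        (𝓝 (-(fderiv ℝ A y.1 y.2))) := by
    intro A y hd
    have c0 : xt 0 y = y.1 := by simp [xt]
    have hx : HasDerivAt (fun t : ℝ => xt t y) y.2 0 := by
      have h1 := ((Real.hasDerivAt_cos 0).smul_const y.1).add
        ((Real.hasDerivAt_sin 0).smul_const y.2)
      have h2 : -Real.sin 0 • y.1 + Real.cos 0 • y.2 = y.2 := by simp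
      rw [h2] at h1
      exact h1
    have hA : HasFDerivAt A (fderiv ℝ A y.1) (xt 0 y) := by
      rw [c0]; exact hd.hasFDerivAt
    have h2 := hA.comp_hasDerivAt (0 : ℝ) hx
    have h3 := hasDerivAt_iff_tendsto_slope.1 h2
    have h4 : Tendsto (slope (A ∘ fun t : ℝ => xt t y) 0) (𝓝[>] 0)
        (𝓝 (fderiv ℝ A y.1 y.2)) :=
      h3.mono_left (nhdsWithin_mono _ (fun t ht => ne_of_gt ht))
    refine (h4.neg).congr fun t => ?_
    rw [slope_def_field]
    simp only [Function.comp_apply, c0, sub_zero]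
    rw [div_eq_inv_mul]
    ring
  refine tendsto_integral_filter_of_dominated_convergence
    (fun y => |w y.1| * ((CA * Real.exp (2 * CA * (‖y.1‖ + ‖y.2‖)) * (‖y.1‖ + ‖y.2‖)) *
      (CB * Real.exp (2 * CB * (‖y.1‖ + ‖y.2‖)) * (‖y.1‖ + ‖y.2‖)))) ?_ ?_ ?_ ?_
  · refine Eventually.of_forall fun t => Continuous.aestronglyMeasurable ?_
    have c1 := hA.comp (xt_cont (n := n) t)
    have c2 := hA.comp (continuous_fst (X := E n) (Y := E n))
    have c3 := hB.comp (xt_cont (n := n) t)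
    have c4 := hB.comp (continuous_fst (X := E n) (Y := E n))
    have c5 := hw.comp (continuous_fst (X := E n) (Y := E n))
    exact c5.mul ((continuous_const.mul (c2.sub c1)).mul (continuous_const.mul (c4.sub c3)))
  · filter_upwards [self_mem_nhdsWithin] with t ht
    refine Eventually.of_forall fun y => ?_
    rw [Real.norm_eq_abs, abs_mul, abs_mul]
    have hs : 0 ≤ ‖y.1‖ + ‖y.2‖ := add_nonneg (norm_nonneg _) (norm_nonneg _)
    refine mul_le_mul_of_nonneg_left ?_ (abs_nonneg _)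
    exact mul_le_mul (hquot CA hCA A hA2 t ht y) (hquot CB hCB B hB2 t ht y) (abs_nonneg _)
      (by positivity)
  · have g0 : G2 (fun y : E n × E n => |w y.1|) :=
      (EG_G2_fst hwG).mono fun y => by rw [abs_abs]
    have g1 : G2 (fun y : E n × E n => CA * Real.exp (2 * CA * (‖y.1‖ + ‖y.2‖)) *
        (‖y.1‖ + ‖y.2‖)) :=
      ((G2_const CA).mul (G2_exp (by positivity))).mul G2_norm
    have g2 : G2 (fun y : E n × E n => CB * Real.exp (2 * CB * (‖y.1‖ + ‖y.2‖)) *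
        (‖y.1‖ + ‖y.2‖)) :=
      ((G2_const CB).mul (G2_exp (by positivity))).mul G2_norm
    refine (g0.mul (g1.mul g2)).integrable (Continuous.aestronglyMeasurable ?_)
    have c5 := hw.comp (continuous_fst (X := E n) (Y := E n))
    exact c5.abs.mul (by fun_prop)
  · have h1 : ∀ᵐ y ∂((gm n).prod (gm n)), DifferentiableAt ℝ A y.1 :=
      Measure.quasiMeasurePreserving_fst.ae hAd
    have h2 : ∀ᵐ y ∂((gm n).prod (gm n)), DifferentiableAt ℝ B y.1 :=
      Measure.quasiMeasurePreserving_fst.ae hBd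
    filter_upwards [h1, h2] with y hy1 hy2
    have := ((hlim A y hy1).mul (hlim B y hy2)).const_mul (w y.1)
    simpa using this

/-- integration of the square of a field of linear functionals -/
lemma int_sq {n : ℕ} (w : E n → ℝ) (hw : Measurable w) (hwG : EG w) (l : E n → E n →L[ℝ] ℝ)
    (hl : Measurable l) (L : ℝ) (hlL : ∀ x, ‖l x‖ ≤ L) :
    ∫ y, w y.1 * (l y.1 y.2) ^ 2 ∂((gm n).prod (gm n)) = ∫ x, ‖l x‖ ^ 2 * w x ∂gm n := by
  have hG : G2 (fun y : E n × E n => w y.1 * (l y.1 y.2) ^ 2) := by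
    refine ((EG_G2_fst hwG).mul ((G2_const (L ^ 2)).mul (G2_norm.mul G2_norm))).mono fun y => ?_
    have hs : 0 ≤ ‖y.1‖ + ‖y.2‖ := add_nonneg (norm_nonneg _) (norm_nonneg _)
    rw [abs_mul, abs_mul]
    refine mul_le_mul_of_nonneg_left ?_ (abs_nonneg _)
    have h1 : |l y.1 y.2| ≤ |L| * (‖y.1‖ + ‖y.2‖) := by
      calc |l y.1 y.2| = ‖l y.1 y.2‖ := rfl
        _ ≤ ‖l y.1‖ * ‖y.2‖ := (l y.1).le_opNorm _
        _ ≤ |L| * ‖y.2‖ := mul_le_mul_of_nonneg_right ((hlL _).trans (le_abs_self L))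
            (norm_nonneg _)
        _ ≤ _ := mul_le_mul_of_nonneg_left (by linarith [norm_nonneg y.1]) (abs_nonneg _)
    calc |(l y.1 y.2) ^ 2| = |l y.1 y.2| ^ 2 := abs_pow _ _
      _ ≤ (|L| * (‖y.1‖ + ‖y.2‖)) ^ 2 := pow_le_pow_left₀ (abs_nonneg _) h1 2
      _ = L ^ 2 * ((‖y.1‖ + ‖y.2‖) * (‖y.1‖ + ‖y.2‖)) := by rw [mul_pow, sq_abs]; ring
      _ = |L ^ 2 * ((‖y.1‖ + ‖y.2‖) * (‖y.1‖ + ‖y.2‖))| := (abs_of_nonneg (by positivity)).symm
  have hm : Measurable (fun y : E n × E n => w y.1 * (l y.1 y.2) ^ 2) := by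
    have h1 : Measurable (fun y : E n × E n => l y.1 y.2) := by
      have hc : Continuous (fun p : (E n →L[ℝ] ℝ) × E n => p.1 p.2) := by fun_prop
      exact hc.measurable.comp ((hl.comp measurable_fst).prodMk measurable_snd)
    exact (hw.comp measurable_fst).mul (h1.pow_const 2)
  rw [integral_prod _ (hG.integrable hm.aestronglyMeasurable)]
  congr 1
  ext x
  simp only
  rw [integral_const_mul, gm_sq, mul_comm]

/-- optimisation over the parameter -/
lemma opt_param {A k R : ℝ} (hk : 0 ≤ k) (hR : 0 ≤ R)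
    (h : ∀ l : ℝ, 0 < l → A ≤ l / 2 * k + 2 / l * R) : A ≤ 2 * Real.sqrt (k * R) := by
  have key : ∀ e : ℝ, 0 < e → A ≤ 2 * Real.sqrt ((k + e) * (R + e)) := by
    intro e he
    have hk' : 0 < k + e := by linarith
    have hR' : 0 < R + e := by linarith
    have sk := Real.sqrt_pos.2 hk'
    have sR := Real.sqrt_pos.2 hR'
    have h1 := h (2 * (Real.sqrt (R + e) / Real.sqrt (k + e))) (by positivity)
    have q1 := Real.mul_self_sqrt hk'.le
    have q2 := Real.mul_self_sqrt hR'.le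
    have e1 : 2 * (Real.sqrt (R + e) / Real.sqrt (k + e)) / 2 * (k + e) =
        Real.sqrt ((k + e) * (R + e)) := by
      rw [Real.sqrt_mul hk'.le]
      field_simp
      nlinarith
    have e2 : 2 / (2 * (Real.sqrt (R + e) / Real.sqrt (k + e))) * (R + e) =
        Real.sqrt ((k + e) * (R + e)) := by
      rw [Real.sqrt_mul hk'.le]
      field_simp
      nlinarith
    have m1 : 2 * (Real.sqrt (R + e) / Real.sqrt (k + e)) / 2 * k ≤
        2 * (Real.sqrt (R + e) / Real.sqrt (k + e)) / 2 * (k + e) :=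
      mul_le_mul_of_nonneg_left (by linarith) (by positivity)
    have m2 : 2 / (2 * (Real.sqrt (R + e) / Real.sqrt (k + e))) * R ≤
        2 / (2 * (Real.sqrt (R + e) / Real.sqrt (k + e))) * (R + e) :=
      mul_le_mul_of_nonneg_left (by linarith) (by positivity)
    linarith
  have hlim : Tendsto (fun e : ℝ => 2 * Real.sqrt ((k + e) * (R + e))) (𝓝[>] 0)
      (𝓝 (2 * Real.sqrt ((k + 0) * (R + 0)))) := by
    apply Tendsto.mono_left _ nhdsWithin_le_nhds
    apply Continuous.tendsto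
    fun_prop
  simp only [add_zero] at hlim
  exact ge_of_tendsto hlim (by filter_upwards [self_mem_nhdsWithin] with e he using key e he)

lemma EG_sq {n : ℕ} {F : E n → ℝ} (h0 : EG F) : EG (fun x => F x ^ 2) := by
  obtain ⟨C, hC⟩ := h0
  refine ⟨C ^ 2 + 2 * |C|, fun x => ?_⟩
  have h1 := hC x
  rw [Real.norm_eq_abs] at h1
  rw [Real.norm_eq_abs, abs_of_nonneg (sq_nonneg _)]
  calc F x ^ 2 = |F x| ^ 2 := (sq_abs _).symm
    _ ≤ (C * Real.exp (C * ‖x‖)) ^ 2 := pow_le_pow_left₀ (abs_nonneg _) h1 2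
    _ = C ^ 2 * Real.exp (2 * C * ‖x‖) := by
        rw [mul_pow, ← Real.exp_nat_mul]; congr 2; push_cast; ring
    _ ≤ (C ^ 2 + 2 * |C|) * Real.exp ((C ^ 2 + 2 * |C|) * ‖x‖) := by
        refine mul_le_mul (by linarith [abs_nonneg C]) ?_ (Real.exp_pos _).le (by positivity)
        apply Real.exp_le_exp.2
        exact mul_le_mul_of_nonneg_right (by nlinarith [le_abs_self C]) (norm_nonneg _)

lemma exp_sub_le (a b : ℝ) : |Real.exp a - Real.exp b| ≤ Real.exp (max a b) * |a - b| := by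
  rcases le_total a b with h | h
  · rw [max_eq_right h, abs_sub_comm, abs_sub_comm a b, abs_of_nonneg (sub_nonneg.2 h),
      abs_of_nonneg (sub_nonneg.2 (Real.exp_le_exp.2 h))]
    have h1 : Real.exp a = Real.exp b * Real.exp (a - b) := by
      rw [← Real.exp_add]; congr 1; ring
    have h2 := Real.add_one_le_exp (a - b)
    nlinarith [Real.exp_pos b]
  · rw [max_eq_left h, abs_of_nonneg (sub_nonneg.2 h),
      abs_of_nonneg (sub_nonneg.2 (Real.exp_le_exp.2 h))]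
    have h1 : Real.exp b = Real.exp a * Real.exp (b - a) := by
      rw [← Real.exp_add]; congr 1; ring
    have h2 := Real.add_one_le_exp (b - a)
    nlinarith [Real.exp_pos a]

lemma Lip_exp_quot {n : ℕ} {L : ℝ} {g : E n → ℝ} (hL : 0 ≤ L) (hg : Lip L g) :
    ∃ C : ℝ, 0 ≤ C ∧ ∀ x y, |Real.exp (g x) - Real.exp (g y)| ≤
      C * Real.exp (C * (‖x‖ + ‖y‖)) * ‖x - y‖ := by
  have hb : ∀ x, g x ≤ |g 0| + L * ‖x‖ := by
    intro x
    have h1 := hg x 0
    rw [sub_zero] at h1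
    have := abs_sub_abs_le_abs_sub (g x) (g 0)
    linarith [le_abs_self (g x)]
  refine ⟨Real.exp |g 0| * (L + 1) + L, by positivity, fun x y => ?_⟩
  have hx := norm_nonneg x
  have hy := norm_nonneg y
  have hxy := norm_nonneg (x - y)
  have e0 : 1 ≤ Real.exp |g 0| := Real.one_le_exp (abs_nonneg _)
  have hm : max (g x) (g y) ≤ |g 0| + L * (‖x‖ + ‖y‖) := by
    apply max_le
    · exact (hb x).trans (by nlinarith [mul_nonneg hL hy])
    · exact (hb y).trans (by nlinarith [mul_nonneg hL hx])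
  refine (exp_sub_le _ _).trans ?_
  calc Real.exp (max (g x) (g y)) * |g x - g y| ≤
        Real.exp (|g 0| + L * (‖x‖ + ‖y‖)) * (L * ‖x - y‖) :=
        mul_le_mul (Real.exp_le_exp.2 hm) (hg x y) (abs_nonneg _) (Real.exp_pos _).le
    _ = (Real.exp |g 0| * L) * Real.exp (L * (‖x‖ + ‖y‖)) * ‖x - y‖ := by
        rw [Real.exp_add]; ring
    _ ≤ _ := by
        refine mul_le_mul_of_nonneg_right ?_ hxy
        refine mul_le_mul ?_ ?_ (Real.exp_pos _).le (by positivity)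
        · nlinarith
        · apply Real.exp_le_exp.2
          refine mul_le_mul_of_nonneg_right ?_ (by positivity)
          nlinarith [mul_nonneg (Real.exp_pos |g 0|).le (by linarith : (0 : ℝ) ≤ L + 1)]

/-- A3 with GB4 as a hypothesis -/
theorem A3_of {n : ℕ} (GB4 : ∀ (F : E n → ℝ) (_ : ContDiff ℝ 1 F) (_ : EG F)
      (_ : EG (fderiv ℝ F)) (t : ℝ),
      ∫ y, (F y.1 - F (Real.cos t • y.1 + Real.sin t • y.2)) ^ 2 ∂((gm n).prod (gm n)) ≤
        t ^ 2 * ∫ x, ‖fderiv ℝ F x‖ ^ 2 ∂gm n)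
    (F : E n → ℝ) (hF : ContDiff ℝ 1 F) (h0 : EG F) (h1 : EG (fderiv ℝ F))
    (L : ℝ) (hL : 0 ≤ L) (g : E n → ℝ)
    (hg : KKT ((gm n).withDensity (fun x => ENNReal.ofReal (F x ^ 2))) L g) :
    ∫ x, ‖fderiv ℝ g x‖ ^ 2 * Real.exp (g x) ∂gm n ≤
      2 * Real.sqrt ((∫ x, ‖fderiv ℝ F x‖ ^ 2 ∂gm n) *
        ∫ x, ‖fderiv ℝ g x‖ ^ 2 * F x ^ 2 ∂gm n) := by
  have hLip : Lip L g := hg.1
  have hFc := hF.continuous
  have hgc := Lip_cont hLip
  have hgG := Lip_EG hL hLip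
  have hFG2 := EG_sq h0
  have hgd := Lip_ae_diff hLip
  have hed : ∀ᵐ x ∂gm n, DifferentiableAt ℝ (fun x => Real.exp (g x)) x := by
    filter_upwards [hgd] with x hx using hx.exp
  obtain ⟨C, hC, hCe⟩ := Lip_exp_quot hL hLip
  have hgq : ∀ x y, |g x - g y| ≤ L * Real.exp (L * (‖x‖ + ‖y‖)) * ‖x - y‖ := by
    intro x y
    refine (hLip x y).trans (mul_le_mul_of_nonneg_right ?_ (norm_nonneg _))
    have : 1 ≤ Real.exp (L * (‖x‖ + ‖y‖)) := Real.one_le_exp (by positivity)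
    nlinarith
  -- the two limits
  have lim1 := lim_quad (fun _ : E n => (1 : ℝ)) g (fun x => Real.exp (g x)) continuous_const
    ⟨1, fun x => by simp⟩ hgc
    (Real.continuous_exp.comp hgc) hgd hed L C hL hC hgq hCe
  have lim2 := lim_quad (fun x => F x ^ 2) g g (by fun_prop) hFG2 hgc hgc hgd hgd L L hL hL
    hgq hgq
  have v1 : ∫ y, (1 : ℝ) * (fderiv ℝ g y.1 y.2 * fderiv ℝ (fun x => Real.exp (g x)) y.1 y.2)
      ∂((gm n).prod (gm n)) = ∫ x, ‖fderiv ℝ g x‖ ^ 2 * Real.exp (g x) ∂gm n := by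
    rw [← int_sq (fun x => Real.exp (g x)) (Real.continuous_exp.comp hgc).measurable
      (Lip_EG_exp hL hLip) (fderiv ℝ g) (measurable_fderiv ℝ g) L (Lip_fderiv_le hL hLip)]
    apply integral_congr_ae
    filter_upwards [Measure.quasiMeasurePreserving_fst.ae hgd] with y hy
    rw [fderiv_exp hy]
    simp only [smul_apply, smul_eq_mul]
    ring
  have v2 : ∫ y, F y.1 ^ 2 * (fderiv ℝ g y.1 y.2 * fderiv ℝ g y.1 y.2)
      ∂((gm n).prod (gm n)) = ∫ x, ‖fderiv ℝ g x‖ ^ 2 * F x ^ 2 ∂gm n := by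
    rw [← int_sq (fun x => F x ^ 2) (by fun_prop) hFG2 (fderiv ℝ g) (measurable_fderiv ℝ g) L
      (Lip_fderiv_le hL hLip)]
    congr 1
    ext y
    ring
  rw [v1] at lim1
  rw [v2] at lim2
  apply opt_param (integral_nonneg fun x => by positivity) (integral_nonneg fun x => by positivity)
  intro l hl
  -- the inequality for fixed t
  have main : ∀ t : ℝ, 0 < t → ∫ y, (1 : ℝ) * ((t⁻¹ * (g y.1 - g (xt t y))) *
        (t⁻¹ * (Real.exp (g y.1) - Real.exp (g (xt t y))))) ∂((gm n).prod (gm n)) ≤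
      l / 2 * (∫ x, ‖fderiv ℝ F x‖ ^ 2 ∂gm n) +
        2 / l * ∫ y, F y.1 ^ 2 * ((t⁻¹ * (g y.1 - g (xt t y))) *
        (t⁻¹ * (g y.1 - g (xt t y)))) ∂((gm n).prod (gm n)) := by
    intro t ht
    have k1 := key_ineq F hF h0 L hL g hg t
    have k2 := GB4 F hF h0 h1 t
    have cx := xt_cont (n := n) t
    have cf := continuous_fst (X := E n) (Y := E n)
    have cg1 := hgc.comp cf
    have cgt := hgc.comp cx
    have cF1 := hFc.comp cf
    have cFt := hFc.comp cx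
    have gg1 := EG_G2_fst hgG
    have ggt := EG_G2_xt hgG t
    have gF1 := EG_G2_fst h0
    have gFt := EG_G2_xt h0 t
    have i1 : Integrable (fun y : E n × E n => (F y.1 - F (xt t y)) ^ 2)
        ((gm n).prod (gm n)) := by
      refine (((gF1.sub gFt).mul (gF1.sub gFt)).mono fun y => ?_).integrable
        ((cF1.sub cFt).pow 2).aestronglyMeasurable
      rw [sq]
    have i2 : Integrable (fun y : E n × E n => F y.1 ^ 2 * (g y.1 - g (xt t y)) ^ 2)
        ((gm n).prod (gm n)) := by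
      refine (((gF1.mul gF1).mul ((gg1.sub ggt).mul (gg1.sub ggt))).mono fun y => ?_).integrable
        ((cF1.pow 2).mul ((cg1.sub cgt).pow 2)).aestronglyMeasurable
      rw [sq, sq]
    have i3 : Integrable (fun y : E n × E n => F (xt t y) ^ 2 * (g y.1 - g (xt t y)) ^ 2)
        ((gm n).prod (gm n)) := by
      refine (((gFt.mul gFt).mul ((gg1.sub ggt).mul (gg1.sub ggt))).mono fun y => ?_).integrable
        ((cFt.pow 2).mul ((cg1.sub cgt).pow 2)).aestronglyMeasurable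
      rw [sq, sq]
    have i4 : Integrable (fun y : E n × E n =>
        (g y.1 - g (xt t y)) * (F y.1 ^ 2 - F (xt t y) ^ 2)) ((gm n).prod (gm n)) := by
      refine (((gg1.sub ggt).mul ((gF1.mul gF1).sub (gFt.mul gFt))).mono fun y => ?_).integrable
        ((cg1.sub cgt).mul ((cF1.pow 2).sub (cFt.pow 2))).aestronglyMeasurable
      rw [sq, sq]
    have hex : ∫ y, F y.1 ^ 2 * (g y.1 - g (xt t y)) ^ 2 ∂((gm n).prod (gm n)) =
        ∫ y, F (xt t y) ^ 2 * (g y.1 - g (xt t y)) ^ 2 ∂((gm n).prod (gm n)) := by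
      have := GB3 (n := n) t (fun p => F p.1 ^ 2 * (g p.1 - g p.2) ^ 2)
        (((hFc.comp continuous_fst).pow 2).mul
          (((hgc.comp continuous_fst).sub (hgc.comp continuous_snd)).pow 2)).measurable
      simp only at this
      refine Eq.trans (show _ = _ from this) ?_
      congr 1
      ext y
      unfold xt
      ring
    have k3 : ∫ y, (g y.1 - g (xt t y)) * (F y.1 ^ 2 - F (xt t y) ^ 2) ∂((gm n).prod (gm n)) ≤
        ∫ y, (l / 2 * (F y.1 - F (xt t y)) ^ 2 + (1 / l) * (F y.1 ^ 2 * (g y.1 - g (xt t y)) ^ 2 +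
          F (xt t y) ^ 2 * (g y.1 - g (xt t y)) ^ 2)) ∂((gm n).prod (gm n)) := by
      refine integral_mono i4 ((i1.const_mul _).add ((i2.add i3).const_mul _)) fun y => ?_
      simp only
      set a := F y.1
      set b := F (xt t y)
      set c := g y.1 - g (xt t y)
      have e1 : (l / 2 * (a - b) ^ 2 + 1 / l * (a ^ 2 * c ^ 2 + b ^ 2 * c ^ 2)) -
          c * (a ^ 2 - b ^ 2) = 1 / (2 * l) * ((l * (a - b) - c * (a + b)) ^ 2 +
            c ^ 2 * (a - b) ^ 2) := by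
        field_simp
        ring
      have e2 : 0 ≤ 1 / (2 * l) * ((l * (a - b) - c * (a + b)) ^ 2 +
            c ^ 2 * (a - b) ^ 2) := by positivity
      linarith
    have i23 : Integrable (fun y : E n × E n => F y.1 ^ 2 * (g y.1 - g (xt t y)) ^ 2 +
          F (xt t y) ^ 2 * (g y.1 - g (xt t y)) ^ 2) ((gm n).prod (gm n)) := i2.add i3
    rw [integral_add (i1.const_mul _) (i23.const_mul _), integral_const_mul,
      integral_const_mul, integral_add i2 i3, ← hex] at k3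
    have k2' : ∫ y, (F y.1 - F (xt t y)) ^ 2 ∂((gm n).prod (gm n)) ≤
        t ^ 2 * ∫ x, ‖fderiv ℝ F x‖ ^ 2 ∂gm n := k2
    have r1 : ∫ y, (1 : ℝ) * ((t⁻¹ * (g y.1 - g (xt t y))) *
        (t⁻¹ * (Real.exp (g y.1) - Real.exp (g (xt t y))))) ∂((gm n).prod (gm n)) =
        (t⁻¹) ^ 2 * ∫ y, (g y.1 - g (xt t y)) * (Real.exp (g y.1) - Real.exp (g (xt t y)))
        ∂((gm n).prod (gm n)) := by
      rw [← integral_const_mul]; congr 1; ext y; ring
    have r2 : ∫ y, F y.1 ^ 2 * ((t⁻¹ * (g y.1 - g (xt t y))) *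
        (t⁻¹ * (g y.1 - g (xt t y)))) ∂((gm n).prod (gm n)) =
        (t⁻¹) ^ 2 * ∫ y, F y.1 ^ 2 * (g y.1 - g (xt t y)) ^ 2 ∂((gm n).prod (gm n)) := by
      rw [← integral_const_mul]; congr 1; ext y; ring
    rw [r1, r2]
    set K := ∫ x, ‖fderiv ℝ F x‖ ^ 2 ∂gm n
    set I := ∫ y, F y.1 ^ 2 * (g y.1 - g (xt t y)) ^ 2 ∂((gm n).prod (gm n))
    have k4 : ∫ y, (g y.1 - g (xt t y)) * (Real.exp (g y.1) - Real.exp (g (xt t y)))
        ∂((gm n).prod (gm n)) ≤ l / 2 * (t ^ 2 * K) + 2 / l * I := by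
      have := mul_le_mul_of_nonneg_left k2' (by positivity : (0 : ℝ) ≤ l / 2)
      have e : 2 / l * I = 1 / l * (I + I) := by ring
      rw [e]
      linarith
    have k5 := mul_le_mul_of_nonneg_left k4 (by positivity : (0 : ℝ) ≤ (t⁻¹) ^ 2)
    refine k5.trans (le_of_eq ?_)
    field_simp
  refine le_of_tendsto_of_tendsto lim1 ((lim2.const_mul _).const_add _) ?_
  filter_upwards [self_mem_nhdsWithin] with t ht using main t ht

end Pool.Agent.H32.Heat
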